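import Pool.Agent.H39.Newt.Stmts

/-!
# Project NEWTON, module STD: unique representations
-/

set_option autoImplicit false

namespace Pool.Newt

theorem STD_thm (hDWN : SDwn) : SStd := by
  classical
  intro σ V _ _ U vec
  -- indices
  let N := U.card
  let g : Fin N ≃ U := U.equivFin.symm
  let K := Fintype.card V
  let e : V ≃ Fin K := Fintype.equivFin V
  let val : Fin N × (V → ℕ) → σ → ℕ := fun p j => (g p.1 : σ → ℕ) j + ∑ v, p.2 v * vec v j
  let lx : (V → ℕ) → Lex (Fin K → ℕ) := fun m => toLex fun i => m (e.symm i)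
  have lx_add : ∀ m k : V → ℕ, lx (m + k) = lx m + lx k := fun m k => rfl
  have lx_inj : ∀ m k : V → ℕ, lx m = lx k → m = k := by
    intro m k h
    funext v
    have h1 : (fun i => m (e.symm i)) = fun i => k (e.symm i) := toLex.injective h
    have h2 := congrFun h1 (e v)
    simpa using h2
  let key : Fin N × (V → ℕ) → Fin N ×ₗ Lex (Fin K → ℕ) := fun p => toLex (p.1, lx p.2)
  have key_inj : ∀ p q, key p = key q → p = q := by
    intro p q h
    have h1 : (p.1, lx p.2) = (q.1, lx q.2) := toLex.injective h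
    rw [Prod.mk.injEq] at h1
    exact Prod.ext h1.1 (lx_inj _ _ h1.2)
  let Std : Fin N × (V → ℕ) → Prop := fun p => ∀ q, val q = val p → key p ≤ key q
  have hval_add : ∀ (i : Fin N) (m k : V → ℕ) (j : σ),
      val (i, m + k) j = val (i, m) j + ∑ v, k v * vec v j := by
    intro i m k j
    simp only [val, Pi.add_apply, add_mul, Finset.sum_add_distrib]
    ring
  have hlow : ∀ i : Fin N, IsLowerSet {m : V → ℕ | Std (i, m)} := by
    intro i m m' hle hm q hq
    obtain ⟨k, rfl⟩ : ∃ k, m = m' + k := ⟨m - m', by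
      rw [add_comm, tsub_add_cancel_of_le hle]⟩
    have h1 : val (q.1, q.2 + k) = val (i, m' + k) := by
      funext j
      rw [hval_add, hval_add, ← hq]
    have h2 := hm _ h1
    simp only [key, Prod.Lex.toLex_le_toLex, lx_add] at h2 ⊢
    rcases h2 with h2 | ⟨h2, h3⟩
    · exact Or.inl h2
    · exact Or.inr ⟨h2, le_of_add_le_add_right h3⟩
  have hex : ∀ x : σ → ℕ, (∃ p, val p = x) → ∃ p, val p = x ∧ Std p := by
    intro x hx
    have hwf : WellFounded (fun p q : Fin N × (V → ℕ) => key p < key q) :=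
      InvImage.wf key wellFounded_lt
    obtain ⟨p, hp, hmin⟩ := hwf.has_min {p | val p = x} hx
    refine ⟨p, hp, fun q hq => ?_⟩
    exact not_lt.1 (hmin q (hq.trans hp))
  have huniq : ∀ p q, val p = val q → Std p → Std q → p = q := by
    intro p q h hp hq
    exact key_inj _ _ (le_antisymm (hp q h.symm) (hq p h))
  choose n c S hbox using fun i : Fin N => hDWN V {m : V → ℕ | Std (i, m)} (hlow i)
  let T := Σ i : Fin N, Fin (n i)
  let P : (σ → ℕ) → T → (V → ℕ) → Prop := fun x t k => (∀ v, v ∉ S t.1 t.2 → k v = 0) ∧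
    ∀ j, x j = val (t.1, c t.1 t.2) j + ∑ v, k v * vec v j
  have main : ∀ x : σ → ℕ, (∃ u0 ∈ U, ∃ m : V → ℕ, ∀ j, x j = u0 j + ∑ v, m v * vec v j) →
      ∃ t k, P x t k ∧ ∀ t' k', P x t' k' → t' = t ∧ k' = k := by
    rintro x ⟨u0, hu0, m, hx⟩
    obtain ⟨p, hp, hstd⟩ := hex x ⟨(g.symm ⟨u0, hu0⟩, m), by
      funext j
      simp only [val, Equiv.apply_symm_apply]
      exact (hx j).symm⟩
    obtain ⟨i, m0⟩ := p
    obtain ⟨b, ⟨hb1, hb2⟩, hb3⟩ := (hbox i m0).1 hstd
    refine ⟨⟨i, b⟩, fun v => m0 v - c i b v, ⟨?_, ?_⟩, ?_⟩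
    · intro v hv
      show m0 v - c i b v = 0
      rw [hb1 v hv]
      exact Nat.sub_self _
    · intro j
      show x j = val (i, c i b) j + ∑ v, (m0 v - c i b v) * vec v j
      have h0 : c i b + (fun v => m0 v - c i b v) = m0 := by
        funext v
        simp only [Pi.add_apply]
        by_cases hv : v ∈ S i b
        · have := hb2 v hv
          omega
        · have := hb1 v hv
          omega
      have h1 := hval_add i (c i b) (fun v => m0 v - c i b v) j
      rw [h0, hp] at h1
      exact h1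
    · rintro ⟨i', b'⟩ k ⟨hk1, hk2⟩
      have hst' : Std (i', c i' b' + k) := by
        refine (hbox i' (c i' b' + k)).2 ⟨b', fun v hv => ?_, fun v hv => ?_⟩
        · rw [Pi.add_apply, hk1 v hv, add_zero]
        · rw [Pi.add_apply]
          exact Nat.le_add_right _ _
      have hval' : val (i', c i' b' + k) = val (i, m0) := by
        rw [hp]
        funext j
        rw [hval_add, hk2 j]
      have heq := huniq _ _ hval' hst' hstd
      rw [Prod.mk.injEq] at heq
      obtain ⟨h1, h2⟩ := heq
      subst h1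
      have h3 : b' = b := by
        refine hb3 b' ⟨fun v hv => ?_, fun v hv => ?_⟩
        · rw [← h2, Pi.add_apply, hk1 v hv, add_zero]
        · rw [← h2, Pi.add_apply]
          exact Nat.le_add_right _ _
      subst h3
      refine ⟨rfl, ?_⟩
      funext v
      rw [← h2, Pi.add_apply]
      simp
  let f : Fin (Fintype.card T) ≃ T := (Fintype.equivFin T).symm
  refine ⟨Fintype.card T, fun β j => val ((f β).1, c (f β).1 (f β).2) j,
    fun β => S (f β).1 (f β).2, ?_, ?_⟩
  · intro β
    exact ⟨(g (f β).1 : σ → ℕ), (g (f β).1).2, c (f β).1 (f β).2, fun j => rfl⟩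
  · intro x hx
    obtain ⟨t, k, h1, h2⟩ := main x hx
    refine ⟨(f.symm t, k), ?_, ?_⟩
    · show P x (f (f.symm t)) k
      rw [f.apply_symm_apply]
      exact h1
    · rintro ⟨β, k'⟩ hk'
      obtain ⟨h3, h4⟩ := h2 (f β) k' hk'
      rw [Prod.mk.injEq]
      exact ⟨by rw [← h3, f.symm_apply_apply], h4⟩

end Pool.Newt
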